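import Pool.Agent.V146.QT.Prod2
import Pool.Agent.V146.QT.Hom

set_option autoImplicit false

/-!
# All `H`-moments of the `p`-parts of class groups of quadratic fields, in arbitrary families

For a finite abelian `p`-group `H`, a product of `r` cyclic groups of orders `p ^ e j`, the mean value of
the number of surjections `Cl(K)[p^∞] → H` over an arbitrary family of `M` quadratic fields (imaginary or
real) with discriminants in an interval `[X, X + Y]` is bounded, with a power saving for every cyclic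
factor of `H`: the factor of order `q = p ^ e j` costs `√X / (M √X) ^ (1 / (q + 1))`. For the
intervals themselves, `M = Y`.
-/

namespace Pool.Agent.Results.MP_0f260b_nt.MomentsShortIntervals

open NumberField

/-- `#Sur(Cl(K)[p^∞], H)`: the number of surjective homomorphisms from the `p`-primary part of the
ideal class group of `K` onto `H`. -/
noncomputable def sur (p : ℕ) [Fact p.Prime] (K : Type) [Field K] [NumberField K] (H : Type)
    [CommGroup H] : ℕ :=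
  Nat.card {f : CommGroup.primaryComponent (ClassGroup (𝓞 K)) p →* H // Function.Surjective f}

theorem sur_le_prod (p : ℕ) [Fact p.Prime] {r : ℕ} (e : Fin r → ℕ) (H : Type) [CommGroup H]
    (hH : Nonempty (H ≃* ∀ j, Multiplicative (ZMod (p ^ e j)))) (K : Type) [Field K] [NumberField K] :
    (sur p K H : ℝ) ≤ ∏ j, Pool.Agent.V146.QT.tor (p ^ e j) K := by
  obtain ⟨iso⟩ := hH
  have h1 := Pool.Agent.V146.QT.sur_le (ClassGroup (𝓞 K))
    (CommGroup.primaryComponent (ClassGroup (𝓞 K)) p) H (fun j => p ^ e j)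
    (fun j => Nat.one_le_pow _ _ (Fact.out : p.Prime).pos) iso
  have h2 : (sur p K H : ℝ) ≤
      ((∏ j, Nat.card {a : ClassGroup (𝓞 K) // a ^ (p ^ e j) = 1} : ℕ) : ℝ) := by
    exact_mod_cast h1
  rw [Nat.cast_prod] at h2
  exact h2

/-- Let `p` be a prime, `H` a finite abelian `p`-group, the product of `r ≥ 1` cyclic groups of orders
`p ^ e j` with `r ≤ p ^ e j + 1`, and `ε > 0`. There is a constant `C` such that:

* for all real numbers `1 ≤ M ≤ Y ≤ X` with `√Y (M √X) ^ (r / (p ^ e j + 1)) ≤ M` for all `j` and all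
  quadratic fields `K_D` (real or imaginary) of discriminant `D`, where `D` runs through an arbitrary
  set `S` of at most `4 M` integers with `X ≤ |D| ≤ X + Y`,
  `∑_{D ∈ S} #Sur(Cl(K_D)[p^∞], H) ≤ C X ^ ε M ∏_j (√X / (M √X) ^ (1 / (p ^ e j + 1)))`;
* if `3 r ≤ p ^ e j + 1` for all `j`, then for `X ≥ 1` and quadratic fields with `|D| ≤ X`
  `∑_{D ∈ S} #Sur(Cl(K_D)[p^∞], H) ≤ C X ^ (1 + ∑_j (1 / 2 - 3 / (2 (p ^ e j + 1))) + ε)`. -/
theorem result (p : ℕ) [Fact p.Prime] (r : ℕ) (hr : 1 ≤ r) (e : Fin r → ℕ)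
    (hrp : ∀ j, r ≤ p ^ e j + 1) (H : Type) [CommGroup H]
    (hH : Nonempty (H ≃* ∀ j, Multiplicative (ZMod (p ^ e j)))) (ε : ℝ) (hε : 0 < ε) :
    ∃ C : ℝ, 0 < C ∧
    (∀ X Y M : ℝ, 1 ≤ M → M ≤ Y → Y ≤ X →
      (∀ j, √Y * (M * √X) ^ ((r : ℝ) / ((p : ℝ) ^ e j + 1)) ≤ M) →
      ∀ (S : Finset ℤ) (K : ℤ → Type) [∀ D, Field (K D)] [∀ D, NumberField (K D)],
      (S.card : ℝ) ≤ 4 * M →
      (∀ D ∈ S, (X ≤ |(D : ℝ)| ∧ |(D : ℝ)| ≤ X + Y) ∧ Module.finrank ℚ (K D) = 2 ∧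
        NumberField.discr (K D) = D) →
      ∑ D ∈ S, (sur p (K D) H : ℝ) ≤
        C * X ^ ε * M * ∏ j, (√X / (M * √X) ^ (1 / ((p : ℝ) ^ e j + 1)))) ∧
    ((∀ j, 3 * r ≤ p ^ e j + 1) → ∀ X : ℝ, 1 ≤ X →
      ∀ (S : Finset ℤ) (K : ℤ → Type) [∀ D, Field (K D)] [∀ D, NumberField (K D)],
      (∀ D ∈ S, |(D : ℝ)| ≤ X ∧ Module.finrank ℚ (K D) = 2 ∧ NumberField.discr (K D) = D) →
      ∑ D ∈ S, (sur p (K D) H : ℝ) ≤
        C * X ^ (1 + ∑ j, (1 / 2 - 3 / (2 * ((p : ℝ) ^ e j + 1))) + ε)) := by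
  have hne : Nonempty (Fin r) := ⟨⟨0, hr⟩⟩
  have hl : ∀ j, 1 ≤ p ^ e j := fun j => Nat.one_le_pow _ _ (Fact.out : p.Prime).pos
  obtain ⟨C0, hC0, h0⟩ := Pool.Agent.V146.QT.prod_family (fun j => p ^ e j) hl
    (fun j => by rw [Fintype.card_fin]; exact hrp j) ε hε
  obtain ⟨C2, hC2, h2⟩ : ∃ C2 : ℝ, 0 < C2 ∧ ((∀ j, 3 * r ≤ p ^ e j + 1) → ∀ X : ℝ, 1 ≤ X →
      ∀ (S : Finset ℤ) (K : ℤ → Type) [∀ D, Field (K D)] [∀ D, NumberField (K D)],
      (∀ D ∈ S, |(D : ℝ)| ≤ X ∧ Module.finrank ℚ (K D) = 2 ∧ NumberField.discr (K D) = D) →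
      ∑ D ∈ S, (sur p (K D) H : ℝ) ≤
        C2 * X ^ (1 + ∑ j, (1 / 2 - 3 / (2 * ((p : ℝ) ^ e j + 1))) + ε)) := by
    by_cases h9 : ∀ j, 3 * r ≤ p ^ e j + 1
    · obtain ⟨C2, hC2, h2⟩ := Pool.Agent.V146.QT.prod_full2 (fun j => p ^ e j)
        (fun j => by rw [Fintype.card_fin]; exact h9 j) ε hε
      refine ⟨C2, hC2, fun _ X hX S K _ _ hS => ?_⟩
      have h3 := h2 X hX S K hS
      push_cast at h3
      exact (Finset.sum_le_sum fun D _ => sur_le_prod p e H hH (K D)).trans h3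
    · exact ⟨1, one_pos, fun h => absurd h h9⟩
  have hC01 : C0 ≤ C0 + C2 := by linarith
  have hC21 : C2 ≤ C0 + C2 := by linarith
  refine ⟨C0 + C2, by positivity, ?_, ?_⟩
  · intro X Y M hM hMY hYX hc S K _ _ hSM hS
    have h3 := h0 X Y M hM hMY hYX (by
      intro j
      rw [Fintype.card_fin]
      push_cast
      exact hc j) S K hSM hS
    push_cast at h3
    refine ((Finset.sum_le_sum fun D _ => sur_le_prod p e H hH (K D)).trans h3).trans ?_
    have hX : 0 < X := by linarith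
    have hQ : 0 < M * √X := mul_pos (by linarith) (Real.sqrt_pos.mpr hX)
    have h4 : 0 ≤ ∏ j, (√X / (M * √X) ^ (1 / ((p : ℝ) ^ e j + 1))) :=
      Finset.prod_nonneg fun j _ => by positivity
    gcongr
  · intro h9 X hX S K _ _ hS
    refine (h2 h9 X hX S K hS).trans ?_
    gcongr

end Pool.Agent.Results.MP_0f260b_nt.MomentsShortIntervals
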