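import Mathlib
import Pool.Agent.V1166.WI.Any
import Pool.Agent.V146.QT.Prod
import Pool.Agent.V146.QT.Hom

/-!
# All `H`-moments of the `p`-parts of class groups of quadratic fields, in windows of ANY length

Let `v n ≥ 1` be a sequence with `∑ (v n) ^ (-ε) < ∞` for all `ε > 0`, for instance `v n = 2 ^ n` or
`n!`. For almost every real `α` and for all finite abelian `p`-groups `H`, products of `r` cyclic
groups of orders `p ^ e j` with `9 r ≤ 2 (p ^ e j + 1)`, all `ε > 0`, all large `n` and ALL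
`1 ≤ Y ≤ v n`, the sum of the numbers of surjections `Cl(K)[p^∞] → H` over the quadratic fields with
discriminants in the window `|D - α v n| ≤ Y` is at most
`Y * (v n) ^ (∑ (1 / 2 - 3 / (2 (p ^ e j + 1))) + ε)`, the bound known for the mean over all
discriminants up to `v n`.
-/

set_option autoImplicit false

namespace Pool.Agent.Results.MP_0f260b_nt.SurjectionsInWindows

open MeasureTheory Filter Finset NumberField

/-- `#Sur(Cl(K)[p^∞], H)`: the number of surjective homomorphisms from the `p`-primary part of the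
ideal class group of `K` onto `H`. -/
noncomputable def sur (p : ℕ) [Fact p.Prime] (K : Type) [Field K] [NumberField K] (H : Type)
    [CommGroup H] : ℕ :=
  Nat.card {f : CommGroup.primaryComponent (ClassGroup (𝓞 K)) p →* H // Function.Surjective f}

theorem sur_le_prod (p : ℕ) [Fact p.Prime] {r : ℕ} (e : Fin r → ℕ) (H : Type) [CommGroup H]
    (hH : Nonempty (H ≃* ∀ j, Multiplicative (ZMod (p ^ e j)))) (K : Type) [Field K] [NumberField K] :
    (sur p K H : ℝ) ≤ ∏ j, Pool.Agent.V146.QT.tor (p ^ e j) K := by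
  obtain ⟨iso⟩ := hH
  have h1 := Pool.Agent.V146.QT.sur_le (ClassGroup (𝓞 K))
    (CommGroup.primaryComponent (ClassGroup (𝓞 K)) p) H (fun j => p ^ e j)
    (fun j => Nat.one_le_pow _ _ (Fact.out : p.Prime).pos) iso
  have h2 : (sur p K H : ℝ) ≤
      ((∏ j, Nat.card {a : ClassGroup (𝓞 K) // a ^ (p ^ e j) = 1} : ℕ) : ℝ) := by
    exact_mod_cast h1
  rw [Nat.cast_prod] at h2
  exact h2

/-- the mean value over all discriminants (helper146's theorem) -/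
theorem mean (p : ℕ) [Fact p.Prime] (r : ℕ) (hr : 1 ≤ r) (e : Fin r → ℕ)
    (h9 : ∀ j, 9 * r ≤ 2 * (p ^ e j + 1)) (H : Type) [CommGroup H]
    (hH : Nonempty (H ≃* ∀ j, Multiplicative (ZMod (p ^ e j)))) (ε : ℝ) (hε : 0 < ε) :
    ∃ C : ℝ, 0 < C ∧ ∀ X : ℝ, 1 ≤ X →
      ∀ (S : Finset ℤ) (K : ℤ → Type) [∀ D, Field (K D)] [∀ D, NumberField (K D)],
      (∀ D ∈ S, |(D : ℝ)| ≤ X ∧ Module.finrank ℚ (K D) = 2 ∧ NumberField.discr (K D) = D) →
      ∑ D ∈ S, (sur p (K D) H : ℝ) ≤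
        C * X ^ (1 + ∑ j, (1 / 2 - 3 / (2 * ((p : ℝ) ^ e j + 1))) + ε) := by
  have hne : Nonempty (Fin r) := ⟨⟨0, hr⟩⟩
  obtain ⟨C2, hC2, h2⟩ := Pool.Agent.V146.QT.prod_full (fun j => p ^ e j)
      (fun j => by rw [Fintype.card_fin]; exact h9 j) ε hε
  refine ⟨C2, hC2, fun X hX S K _ _ hS => ?_⟩
  have h3 := h2 X hX S K hS
  push_cast at h3
  exact (Finset.sum_le_sum fun D _ => sur_le_prod p e H hH (K D)).trans h3

/-- the product of the cyclic groups of orders `p ^ e j` -/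
abbrev Prd (p : ℕ) {r : ℕ} (e : Fin r → ℕ) : Type := ∀ j, Multiplicative (ZMod (p ^ e j))

lemma sur_congr (p : ℕ) [Fact p.Prime] (K : Type) [Field K] [NumberField K] (H H' : Type)
    [CommGroup H] [CommGroup H'] (i : H ≃* H') : sur p K H = sur p K H' := by
  unfold sur
  refine Nat.card_congr ?_
  refine ⟨fun f => ⟨i.toMonoidHom.comp f.1, i.surjective.comp f.2⟩,
    fun f => ⟨i.symm.toMonoidHom.comp f.1, i.symm.surjective.comp f.2⟩, fun f => ?_, fun f => ?_⟩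
  · apply Subtype.ext
    ext x
    exact i.symm_apply_apply _
  · apply Subtype.ext
    refine MonoidHom.ext fun x => ?_
    exact i.apply_symm_apply _

/-- the number `m` is the number of surjections for a quadratic field of discriminant `D` -/
def Q (p : ℕ) [Fact p.Prime] {r : ℕ} (e : Fin r → ℕ) (D : ℤ) (m : ℕ) : Prop :=
  ∃ (K : Type) (_ : Field K) (_ : NumberField K), Module.finrank ℚ K = 2 ∧
    NumberField.discr K = D ∧ sur p K (Prd p e) = m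

lemma bdd (p : ℕ) [Fact p.Prime] {r : ℕ} (hr : 1 ≤ r) (e : Fin r → ℕ)
    (he : ∀ j, 9 * r ≤ 2 * (p ^ e j + 1)) (D : ℤ) : BddAbove {m | Q p e D m} := by
  obtain ⟨C, hC, h2⟩ := mean p r hr e he (Prd p e) ⟨MulEquiv.refl _⟩ 1 one_pos
  refine ⟨⌈C * (|(D : ℝ)| + 1) ^ (1 + ∑ j, (1 / 2 - 3 / (2 * ((p : ℝ) ^ e j + 1))) + 1)⌉₊,
    fun m hm => ?_⟩
  obtain ⟨K, i1, i2, h3, h4, h5⟩ := hm
  have h6 := h2 (|(D : ℝ)| + 1) (by linarith [abs_nonneg (D : ℝ)]) {D} (fun _ => K)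
    (fun D' hD' => by
      rw [mem_singleton] at hD'
      subst hD'
      exact ⟨by linarith, h3, h4⟩)
  rw [sum_singleton, h5] at h6
  exact_mod_cast h6.trans (Nat.le_ceil _)

/-- the maximal number, `0` if there is no quadratic field of discriminant `D` -/
noncomputable def M (p : ℕ) [Fact p.Prime] {r : ℕ} (e : Fin r → ℕ) (D : ℤ) : ℕ :=
  sSup {m | Q p e D m}

lemma mem_M (p : ℕ) [Fact p.Prime] {r : ℕ} (hr : 1 ≤ r) (e : Fin r → ℕ)
    (he : ∀ j, 9 * r ≤ 2 * (p ^ e j + 1)) {D : ℤ} (h : M p e D ≠ 0) : Q p e D (M p e D) := by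
  have hne : {m | Q p e D m}.Nonempty := by
    by_contra hcon
    rw [Set.not_nonempty_iff_eq_empty] at hcon
    refine h ?_
    unfold M
    rw [hcon, csSup_empty, bot_eq_zero]
  exact Nat.sSup_mem hne (bdd p hr e he D)

lemma family (p : ℕ) [Fact p.Prime] {r : ℕ} (hr : 1 ≤ r) (e : Fin r → ℕ)
    (he : ∀ j, 9 * r ≤ 2 * (p ^ e j + 1)) : ∃ (K : ℤ → Type) (_ : ∀ D, Field (K D))
    (_ : ∀ D, NumberField (K D)), ∀ D, M p e D ≠ 0 → Module.finrank ℚ (K D) = 2 ∧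
      NumberField.discr (K D) = D ∧ sur p (K D) (Prd p e) = M p e D := by
  have h : ∀ D : ℤ, ∃ (K : Type) (_ : Field K) (_ : NumberField K), M p e D ≠ 0 →
      Module.finrank ℚ K = 2 ∧ NumberField.discr K = D ∧ sur p K (Prd p e) = M p e D := by
    intro D
    by_cases h0 : M p e D = 0
    · exact ⟨ℚ, inferInstance, inferInstance, fun h => absurd h0 h⟩
    · obtain ⟨K, i1, i2, h1⟩ := mem_M p hr e he h0
      exact ⟨K, i1, i2, fun _ => h1⟩
  choose K i1 i2 h1 using h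
  exact ⟨K, i1, i2, h1⟩

lemma total (p : ℕ) [Fact p.Prime] {r : ℕ} (hr : 1 ≤ r) (e : Fin r → ℕ)
    (he : ∀ j, 9 * r ≤ 2 * (p ^ e j + 1)) (ε : ℝ) (hε : 0 < ε) :
    ∃ C : ℝ, 0 < C ∧ ∀ N : ℕ, 1 ≤ N → ∑ D ∈ Icc (-(N : ℤ)) N, (M p e D : ℝ) ≤
      C * (N : ℝ) ^ (1 + ∑ j, (1 / 2 - 3 / (2 * ((p : ℝ) ^ e j + 1))) + ε) := by
  classical
  obtain ⟨C, hC, h2⟩ := mean p r hr e he (Prd p e) ⟨MulEquiv.refl _⟩ ε hε
  refine ⟨C, hC, fun N hN => ?_⟩
  obtain ⟨K, i1, i2, hK⟩ := family p hr e he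
  have h3 := h2 N (by exact_mod_cast hN) ((Icc (-(N : ℤ)) N).filter (fun D => M p e D ≠ 0)) K
    (fun D hD => by
      obtain ⟨g1, g2⟩ := mem_filter.1 hD
      obtain ⟨g3, g4, -⟩ := hK D g2
      refine ⟨?_, g3, g4⟩
      rw [mem_Icc] at g1
      rw [abs_le]
      constructor
      · exact_mod_cast g1.1
      · exact_mod_cast g1.2)
  have h4 : ∑ D ∈ Icc (-(N : ℤ)) N, (M p e D : ℝ) =
      ∑ D ∈ (Icc (-(N : ℤ)) N).filter (fun D => M p e D ≠ 0), (sur p (K D) (Prd p e) : ℝ) := by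
    rw [sum_filter]
    refine sum_congr rfl fun D _ => ?_
    by_cases h0 : M p e D = 0
    · rw [if_neg (not_not.2 h0), h0, Nat.cast_zero]
    · rw [if_pos h0, (hK D h0).2.2]
  rw [h4]
  exact h3

/-- **Theorem.** Let `v n ≥ 1` be a sequence with `∑ (v n) ^ (-ε) < ∞` for all `ε > 0`. For almost all
real `α`: for all primes `p`, all `r ≥ 1`, all `e j` with `9 r ≤ 2 (p ^ e j + 1)` (`1 ≤ j ≤ r`) and all
groups `H` isomorphic to the product of the cyclic groups of orders `p ^ e j`, all `ε > 0` and all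
large `n`, for ALL `1 ≤ Y ≤ v n` the sum of `#Sur(Cl(K)[p^∞], H)` over quadratic fields `K` with
different discriminants `D`, `|D - α v n| ≤ Y`, is at most
`Y * (v n) ^ (∑_j (1 / 2 - 3 / (2 (p ^ e j + 1))) + ε)`. -/
theorem result (v : ℕ → ℝ) (hv1 : ∀ n, 1 ≤ v n)
    (hv : ∀ ε : ℝ, 0 < ε → Summable fun n => (v n) ^ (-ε)) :
    ∀ᵐ α : ℝ, ∀ (p : ℕ) [Fact p.Prime] (r : ℕ) (e : Fin r → ℕ), 1 ≤ r →
      (∀ j, 9 * r ≤ 2 * (p ^ e j + 1)) → ∀ (H : Type) [CommGroup H],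
      Nonempty (H ≃* ∀ j, Multiplicative (ZMod (p ^ e j))) → ∀ ε : ℝ, 0 < ε →
      ∀ᶠ n : ℕ in atTop, ∀ Y : ℝ, 1 ≤ Y → Y ≤ v n →
        ∀ (S : Finset ℤ) (K : ℤ → Type) [∀ D, Field (K D)] [∀ D, NumberField (K D)],
        (∀ D ∈ S, |(D : ℝ) - α * v n| ≤ Y ∧ Module.finrank ℚ (K D) = 2 ∧
          NumberField.discr (K D) = D) →
        ∑ D ∈ S, (sur p (K D) H : ℝ) ≤
          Y * (v n) ^ (∑ j, (1 / 2 - 3 / (2 * ((p : ℝ) ^ e j + 1))) + ε) := by
  have key : ∀ p : ℕ, ∀ r : ℕ, ∀ e : Fin r → ℕ, ∀ᵐ α : ℝ, ∀ [Fact p.Prime], 1 ≤ r →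
      (∀ j, 9 * r ≤ 2 * (p ^ e j + 1)) → ∀ ε : ℝ, 0 < ε → ∀ᶠ n : ℕ in atTop,
      ∀ Y : ℝ, 1 ≤ Y → Y ≤ v n → ∀ S : Finset ℤ, (∀ D ∈ S, |(D : ℝ) - α * v n| ≤ Y) →
        ∑ D ∈ S, (M p e D : ℝ) ≤
          Y * (v n) ^ (∑ j, (1 / 2 - 3 / (2 * ((p : ℝ) ^ e j + 1))) + ε) := by
    intro p r e
    by_cases hc : p.Prime ∧ 1 ≤ r ∧ ∀ j, 9 * r ≤ 2 * (p ^ e j + 1)
    · obtain ⟨hp, hr, he⟩ := hc
      have : Fact p.Prime := ⟨hp⟩
      have hE : 0 ≤ ∑ j, (1 / 2 - 3 / (2 * ((p : ℝ) ^ e j + 1))) := by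
        refine sum_nonneg fun j _ => ?_
        have h1 : (3 : ℝ) ≤ (p : ℝ) ^ e j + 1 := by
          have := he j
          exact_mod_cast (by omega : 3 ≤ p ^ e j + 1)
        have h2 : 3 / (2 * ((p : ℝ) ^ e j + 1)) ≤ 1 / 2 := by
          rw [div_le_div_iff₀ (by positivity) (by norm_num)]
          linarith
        linarith
      filter_upwards [Pool.Agent.V1166.WI.windows (w := fun D => (M p e D : ℝ))
        (fun D => by positivity) hE (total p hr e he) hv1 hv] with α hα _ _ _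
      exact hα
    · refine Eventually.of_forall fun α hp h1 h2 => absurd ⟨hp.out, h1, h2⟩ hc
  filter_upwards [ae_all_iff.2 fun p => ae_all_iff.2 fun r => ae_all_iff.2 fun e => key p r e]
    with α hα p hp r e hr he H hH hiso ε hε
  obtain ⟨iso⟩ := hiso
  filter_upwards [hα p r e hr he ε hε] with n hn Y hY1 hY S K i1 i2 hS
  refine le_trans (sum_le_sum fun D hD => ?_) (hn Y hY1 hY S fun D hD => (hS D hD).1)
  obtain ⟨-, g1, g2⟩ := hS D hD
  rw [sur_congr p (K D) H (Prd p e) iso]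
  exact_mod_cast le_csSup (bdd p hr e he D) ⟨K D, i1 D, i2 D, g1, g2, rfl⟩

end Pool.Agent.Results.MP_0f260b_nt.SurjectionsInWindows
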